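import Pool.Agent.N207.AX.Stm

/-! # AX/LINE (helper878): a general line -/

set_option autoImplicit false

open Topology Set Filter

namespace Pool.Agent.N878.AX

/-- Baire: a point at which countably many analytic functions are not zero -/
theorem line_baire {X ι : Type} [Fintype X] [Countable ι] {U : Set (X → ℂ)} (hU : IsOpen U)
    (hc : IsPreconnected U) (hne : U.Nonempty) (g : ι → (X → ℂ) → ℂ)
    (hg : ∀ i, AnalyticOnNhd ℂ (g i) U) (hg0 : ∀ i, ∃ z ∈ U, g i z ≠ 0) :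
    ∃ x ∈ U, ∀ i, g i x ≠ 0 := by
  have hopen : ∀ i, IsOpen ((U ∩ g i ⁻¹' {0}ᶜ) ∪ (closure U)ᶜ) := by
    intro i
    exact ((hg i).continuousOn.isOpen_inter_preimage hU isOpen_compl_singleton).union
      isClosed_closure.isOpen_compl
  have hdense : ∀ i, Dense ((U ∩ g i ⁻¹' {0}ᶜ) ∪ (closure U)ᶜ) := by
    intro i
    rw [dense_iff_inter_open]
    rintro V hV ⟨z, hz⟩
    by_cases hzU : z ∈ closure U
    · obtain ⟨w, hwV, hwU⟩ := mem_closure_iff.1 hzU V hV hz
      by_contra hcon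
      have h1 : ∀ u ∈ V ∩ U, g i u = 0 := by
        rintro u ⟨huV, huU⟩
        by_contra h2
        exact hcon ⟨u, huV, Or.inl ⟨huU, h2⟩⟩
      have h2 : g i =ᶠ[𝓝 w] 0 := by
        filter_upwards [(hV.inter hU).mem_nhds ⟨hwV, hwU⟩] with u hu
        exact h1 u hu
      have h3 := (hg i).eqOn_zero_of_preconnected_of_eventuallyEq_zero hc hwU h2
      obtain ⟨z', hz'U, hz'⟩ := hg0 i
      exact hz' (h3 hz'U)
    · exact ⟨z, hz, Or.inr hzU⟩
  have h1 := dense_iInter_of_isOpen hopen hdense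
  obtain ⟨x, hxU, hx⟩ := h1.inter_open_nonempty U hU hne
  refine ⟨x, hxU, fun i => ?_⟩
  rcases mem_iInter.1 hx i with h2 | h2
  · exact h2.2
  · exact absurd (subset_closure hxU) h2

/-- a nonconstant function has a partial derivative which is not zero -/
theorem line_partial {X : Type} [Fintype X] [DecidableEq X] {U : Set (X → ℂ)} (hU : IsOpen U)
    (hc : IsPreconnected U) (hne : U.Nonempty) {k : (X → ℂ) → ℂ} (hk : AnalyticOnNhd ℂ k U)
    (hk0 : ∀ c, ∃ z ∈ U, k z ≠ c) :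
    ∃ j : X, ∃ z ∈ U, fderiv ℂ k z (Pi.single j 1) ≠ 0 := by
  by_contra hcon
  push Not at hcon
  have h1 : U.EqOn (fderiv ℂ k) 0 := by
    intro z hz
    rw [Pi.zero_apply]
    apply ContinuousLinearMap.ext
    intro v
    have h2 : v = ∑ j, v j • (Pi.single j (1 : ℂ) : X → ℂ) := by
      rw [← Finset.univ_sum_single v]
      refine Finset.sum_congr rfl fun j _ => ?_
      rw [Finset.univ_sum_single v, ← Pi.single_smul, smul_eq_mul, mul_one]
    rw [h2, map_sum, ContinuousLinearMap.zero_apply]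
    apply Finset.sum_eq_zero
    intro j _
    rw [map_smul, hcon j z hz, smul_zero]
  obtain ⟨z0, hz0⟩ := hne
  obtain ⟨z, hz, hzk⟩ := hk0 (k z0)
  exact hzk (hU.is_const_of_fderiv_eq_zero hc hk.differentiableOn h1 hz hz0)

theorem line_core (X ι κ : Type) [Fintype X] [Countable ι] [Countable κ] (U : Set (X → ℂ))
    (hU : IsOpen U) (hc : IsPreconnected U) (hne : U.Nonempty) (h : ι → (X → ℂ) → ℂ)
    (k : κ → (X → ℂ) → ℂ) (hh : ∀ i, AnalyticOnNhd ℂ (h i) U) (hk : ∀ i, AnalyticOnNhd ℂ (k i) U)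
    (hh0 : ∀ i, ∃ z ∈ U, h i z ≠ 0) (hk0 : ∀ i c, ∃ z ∈ U, k i z ≠ c) :
    ∃ x ∈ U, ∃ v : X → ℂ, (∀ i, h i x ≠ 0) ∧
      ∀ i, deriv (fun τ : ℂ => k i (x + τ • v)) 0 ≠ 0 := by
  classical
  have h1 : ∀ i, ∃ j : X, ∃ z ∈ U, fderiv ℂ (k i) z (Pi.single j 1) ≠ 0 :=
    fun i => line_partial hU hc hne (hk i) (hk0 i)
  choose j hj using h1
  obtain ⟨x, hxU, hx⟩ := line_baire hU hc hne
    (Sum.elim h fun i z => fderiv ℂ (k i) z (Pi.single (j i) 1)) (by
      rintro (i | i)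
      · exact hh i
      · intro z hz
        have h2 : AnalyticAt ℂ (fderiv ℂ (k i)) z := (hk i z hz).fderiv
        exact (ContinuousLinearMap.apply ℂ ℂ (Pi.single (j i) (1 : ℂ) : X → ℂ)).analyticAt _ |>.comp h2)
    (by
      rintro (i | i)
      · exact hh0 i
      · exact hj i)
  obtain ⟨v, -, hv⟩ := line_baire (U := (univ : Set (X → ℂ))) isOpen_univ isPreconnected_univ
    univ_nonempty (fun i z => fderiv ℂ (k i) x z) (fun i z _ =>
      (fderiv ℂ (k i) x).analyticAt z) (fun i => ⟨Pi.single (j i) 1, mem_univ _, hx (Sum.inr i)⟩)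
  refine ⟨x, hxU, v, fun i => hx (Sum.inl i), fun i => ?_⟩
  have h3 : HasFDerivAt (k i) (fderiv ℂ (k i) x) (x + (0 : ℂ) • v) := by
    rw [zero_smul, add_zero]
    exact (hk i x hxU).differentiableAt.hasFDerivAt
  have h4 : HasDerivAt (fun τ : ℂ => x + τ • v) v 0 := by
    have h5 := ((hasDerivAt_id (0 : ℂ)).smul_const v).const_add x
    rw [one_smul] at h5
    exact h5
  have h5 := h3.comp_hasDerivAt (0 : ℂ) h4
  rw [show (fun τ : ℂ => k i (x + τ • v)) = (k i ∘ fun τ : ℂ => x + τ • v) from rfl, h5.deriv]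
  exact hv i

/-- LINE -/
theorem line : Pool.Agent.N207.AX.StmLine := by
  intro X ι κ _ _ _ U hU hc hne h k hh hk hh0 hk0
  exact line_core X ι κ U hU hc hne h k hh hk hh0 hk0

end Pool.Agent.N878.AX
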